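import Pool.Agent.W84.T.Defs

set_option autoImplicit false

namespace Pool.Agent.W764.T

open Finset Filter
open Pool.Agent.H376R2.MR
open Pool.Agent.W78.GA
open Pool.Agent.W78.EC (SP)
open Pool.Agent.W84.T

/-- the cut-off function -/
noncomputable def ph (A r : ℝ) : ℝ := max 0 (min 1 (min (2 * A * r - 1) (2 - r / A)))

theorem ph_cont (A : ℝ) : Continuous (ph A) := by
  unfold ph
  fun_prop

theorem ph_nonneg (A r : ℝ) : 0 ≤ ph A r := le_max_left _ _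

theorem ph_le_one (A r : ℝ) : ph A r ≤ 1 := by
  unfold ph
  exact max_le (by norm_num) (min_le_left _ _)

theorem ph_supp {A r : ℝ} (hA : 1 < A) (h : ph A r ≠ 0) : 1 / (2 * A) ≤ r ∧ r ≤ 2 * A := by
  have hA0 : 0 < A := by linarith
  unfold ph at h
  have h1 : 0 < min 1 (min (2 * A * r - 1) (2 - r / A)) := by
    by_contra hc
    push Not at hc
    exact h (max_eq_left hc)
  rw [lt_min_iff, lt_min_iff] at h1
  obtain ⟨_, h2, h3⟩ := h1
  constructor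
  · rw [div_le_iff₀ (by positivity)]; linarith
  · have h4 : r / A < 2 := by linarith
    rw [div_lt_iff₀ hA0] at h4
    linarith

theorem ph_one {A r : ℝ} (hA : 1 < A) (h1 : 1 / A ≤ r) (h2 : r ≤ A) : ph A r = 1 := by
  have hA0 : 0 < A := by linarith
  unfold ph
  have h3 : 1 ≤ 2 * A * r - 1 := by
    rw [div_le_iff₀ hA0] at h1; linarith
  have h4 : 1 ≤ 2 - r / A := by
    have : r / A ≤ 1 := by rw [div_le_one hA0]; exact h2
    linarith
  rw [min_eq_left (le_min h3 h4)]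
  norm_num

theorem ph_rt {A : ℝ} (hA : 1 < A) : Rt (2 * A) (ph A) :=
  ⟨by linarith, ph_cont A, fun r h => ph_supp hA h⟩

/-- the reflected weight -/
noncomputable def rf (B : ℝ) (φ : ℝ → ℝ) (r : ℝ) : ℝ :=
  φ (1 / max r (1 / (2 * B))) / max r (1 / (2 * B))

theorem rf_rt {B : ℝ} {φ : ℝ → ℝ} (h : Rt B φ) : Rt B (rf B φ) := by
  have hB : 0 < B := by linarith [h.one_lt]
  have hm : ∀ r : ℝ, 0 < max r (1 / (2 * B)) := fun r => lt_max_of_lt_right (by positivity)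
  refine ⟨h.one_lt, ?_, ?_⟩
  · unfold rf
    have hc : Continuous fun r : ℝ => max r (1 / (2 * B)) := by fun_prop
    exact (h.cont.comp (continuous_const.div hc fun r => (hm r).ne')).div hc fun r => (hm r).ne'
  · intro r hr
    have h1 : φ (1 / max r (1 / (2 * B))) ≠ 0 := by
      intro h0
      apply hr
      unfold rf
      rw [h0, zero_div]
    obtain ⟨h2, h3⟩ := h.supp _ h1
    have h4 : 1 / B ≤ max r (1 / (2 * B)) := by
      rw [div_le_iff₀ (hm r)] at h3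
      rw [div_le_iff₀ hB]
      linarith
    have h5 : max r (1 / (2 * B)) ≤ B := by
      rw [div_le_div_iff₀ hB (hm r)] at h2
      linarith
    have h6 : 1 / (2 * B) < 1 / B := by
      apply one_div_lt_one_div_of_lt hB; linarith
    have h7 : max r (1 / (2 * B)) = r := by
      apply max_eq_left
      by_contra hc
      push Not at hc
      rw [max_eq_right hc.le] at h4
      linarith
    rw [h7] at h4 h5
    exact ⟨h4, h5⟩

theorem rf_eq {B : ℝ} {φ : ℝ → ℝ} (h : Rt B φ) {r : ℝ} (hr : 0 < r) : rf B φ r = φ (1 / r) / r := by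
  have hB : 0 < B := by linarith [h.one_lt]
  unfold rf
  rcases le_total (1 / (2 * B)) r with h1 | h1
  · rw [max_eq_left h1]
  · rw [max_eq_right h1]
    have h2 : φ (1 / (1 / (2 * B))) = 0 := by
      by_contra hc
      have h3 := (h.supp _ hc).2
      rw [one_div_one_div] at h3
      linarith
    have h4 : φ (1 / r) = 0 := by
      by_contra hc
      have h3 := (h.supp _ hc).2
      rw [div_le_iff₀ hr] at h3
      rw [le_div_iff₀ (by positivity)] at h1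
      linarith
    rw [h2, h4, zero_div, zero_div]

theorem mem_SP {N : ℕ} {p : ℕ × ℕ} : p ∈ SP N ↔
    (1 ≤ p.1 ∧ p.1 ≤ N) ∧ (1 ≤ p.2 ∧ p.2 ≤ N) ∧ ∃ n : ℕ, p.1 * p.2 = n ^ 2 + 1 := by
  simp only [SP, Finset.mem_filter, Finset.mem_product, Finset.mem_Icc]
  tauto

theorem swap_sum (N : ℕ) (F : ℕ × ℕ → ℝ) : ∑ p ∈ SP N, F p = ∑ p ∈ SP N, F p.swap := by
  refine Finset.sum_nbij' (fun p => p.swap) (fun p => p.swap) ?_ ?_ ?_ ?_ ?_
  · intro p hp
    rw [mem_SP] at hp ⊢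
    obtain ⟨h1, h2, n, hn⟩ := hp
    exact ⟨h2, h1, n, by rw [Prod.fst_swap, Prod.snd_swap, mul_comm]; exact hn⟩
  · intro p hp
    rw [mem_SP] at hp ⊢
    obtain ⟨h1, h2, n, hn⟩ := hp
    exact ⟨h2, h1, n, by rw [Prod.fst_swap, Prod.snd_swap, mul_comm]; exact hn⟩
  · intro p _; exact Prod.swap_swap p
  · intro p _; exact Prod.swap_swap p
  · intro p _; rw [Prod.swap_swap]

theorem t3_swap (p : ℕ × ℕ) : t3 p.swap = t3 p := by
  unfold t3
  rw [Prod.fst_swap, Prod.snd_swap, mul_comm p.2 p.1]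
  ring

/-- the swapped weight -/
theorem w_swap {B : ℝ} {φ : ℝ → ℝ} (h : Rt B φ) {N : ℕ} {p : ℕ × ℕ} (hp : p ∈ SP N) :
    φ ((p.swap.2 : ℝ) / p.swap.1) / p.swap.1 = rf B φ ((p.2 : ℝ) / p.1) / p.1 := by
  rw [mem_SP] at hp
  have h1 : (0 : ℝ) < p.1 := by exact_mod_cast hp.1.1
  have h2 : (0 : ℝ) < p.2 := by exact_mod_cast hp.2.1.1
  rw [rf_eq h (div_pos h2 h1), Prod.fst_swap, Prod.snd_swap, one_div_div]
  field_simp

theorem sum1 {B : ℝ} {φ : ℝ → ℝ} (h : Rt B φ) (N : ℕ) :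
    ∑ p ∈ SP N, (lam p.1 : ℝ) * (φ ((p.2 : ℝ) / p.1) / p.1) =
      ∑ p ∈ SP N, (lam p.1 : ℝ) ^ 0 * lam p.2 * (rf B φ ((p.2 : ℝ) / p.1) / p.1) := by
  rw [swap_sum]
  refine Finset.sum_congr rfl fun p hp => ?_
  rw [w_swap h hp, Prod.fst_swap, pow_zero, one_mul]

theorem sum23 {B : ℝ} {φ : ℝ → ℝ} (h : Rt B φ) (N : ℕ) :
    ∑ p ∈ SP N, (lam p.2 : ℝ) * lam (t3 p) * (φ ((p.2 : ℝ) / p.1) / p.1) =
      ∑ p ∈ SP N, (lam p.1 : ℝ) ^ 1 * lam (t3 p) * (rf B φ ((p.2 : ℝ) / p.1) / p.1) := by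
  rw [swap_sum]
  refine Finset.sum_congr rfl fun p hp => ?_
  rw [w_swap h hp, Prod.snd_swap, pow_one, t3_swap]

theorem lam_cases (n : ℕ) : lam n = 1 ∨ lam n = -1 := by
  unfold lam
  exact neg_one_pow_eq_or ℤ _

theorem ind8 (e₁ e₂ e₃ a b c : ℤ) (h₁ : e₁ = 1 ∨ e₁ = -1) (h₂ : e₂ = 1 ∨ e₂ = -1)
    (h₃ : e₃ = 1 ∨ e₃ = -1) (ha : a = 1 ∨ a = -1) (hb : b = 1 ∨ b = -1) (hc : c = 1 ∨ c = -1)
    (w : ℝ) :
    8 * (if a = e₁ ∧ b = e₂ ∧ c = e₃ then w else 0) =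
      (w + (e₁ * e₂ * e₃ : ℝ) * (a * b * c * w)) + e₁ * (a * w) + e₂ * (b * w) + e₃ * (c * w)
      + e₁ * e₂ * (a * b * w) + e₁ * e₃ * (a * c * w) + e₂ * e₃ * (b * c * w) := by
  rcases h₁ with rfl | rfl <;> rcases h₂ with rfl | rfl <;> rcases h₃ with rfl | rfl <;>
    rcases ha with rfl | rfl <;> rcases hb with rfl | rfl <;> rcases hc with rfl | rfl <;>
    norm_num <;> ring

theorem ind2 (a c : ℤ) (ha : a = 1 ∨ a = -1) (hc : c = 1 ∨ c = -1) (w : ℝ) :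
    w + (c : ℝ) * (a * w) = 2 * (if a = c then w else 0) := by
  rcases ha with rfl | rfl <;> rcases hc with rfl | rfl <;> norm_num <;> ring

theorem small_of_tendsto {f : ℕ → ℝ}
    (h : Tendsto (fun N : ℕ => f N / Real.log N) atTop (nhds 0)) {η : ℝ} (hη : 0 < η) :
    ∃ N₀ : ℕ, ∀ N : ℕ, N₀ ≤ N → ∀ e : ℝ, (e = 1 ∨ e = -1) → -(η * Real.log N) ≤ e * f N := by
  have h1 := (Metric.tendsto_atTop.1 h) η hη
  obtain ⟨N₀, hN₀⟩ := h1
  refine ⟨max N₀ 2, fun N hN e he => ?_⟩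
  have h2 := hN₀ N (le_trans (le_max_left _ _) hN)
  have hN2 : 2 ≤ N := le_trans (le_max_right _ _) hN
  have hlog : 0 < Real.log N := Real.log_pos (by exact_mod_cast hN2)
  rw [Real.dist_eq, sub_zero, abs_div, abs_of_pos hlog, div_lt_iff₀ hlog] at h2
  rw [abs_lt] at h2
  rcases he with rfl | rfl
  · linarith
  · linarith

theorem fin8 (h1 : S_WT) (h2 : S_TR) (h3 : S_LOW) : S_FIN8 := by
  classical
  intro e₁ e₂ e₃ he₁ he₂ he₃
  obtain ⟨δ, A, hδ, hA, N₀, hlow⟩ := h3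
  have hA0 : 0 < A := by linarith
  have hR : Rt (2 * A) (ph A) := ph_rt hA
  have hR' : Rt (2 * A) (rf (2 * A) (ph A)) := rf_rt hR
  set w : ℕ × ℕ → ℝ := fun p => ph A ((p.2 : ℝ) / p.1) / p.1 with hw
  have hη : 0 < δ / 6 := by positivity
  have t2 : Tendsto (fun N : ℕ => (∑ p ∈ SP N, (lam p.2 : ℝ) * w p) / Real.log N)
      atTop (nhds 0) := by
    simpa using h1 0 (2 * A) (ph A) hR
  have t12 : Tendsto (fun N : ℕ => (∑ p ∈ SP N, (lam p.1 : ℝ) * lam p.2 * w p) / Real.log N)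
      atTop (nhds 0) := by
    simpa using h1 1 (2 * A) (ph A) hR
  have t3' : Tendsto (fun N : ℕ => (∑ p ∈ SP N, (lam (t3 p) : ℝ) * w p) / Real.log N)
      atTop (nhds 0) := by
    simpa using h2 0 (2 * A) (ph A) hR
  have t13 : Tendsto (fun N : ℕ => (∑ p ∈ SP N, (lam p.1 : ℝ) * lam (t3 p) * w p) / Real.log N)
      atTop (nhds 0) := by
    simpa using h2 1 (2 * A) (ph A) hR
  have t1 : Tendsto (fun N : ℕ => (∑ p ∈ SP N, (lam p.1 : ℝ) * w p) / Real.log N)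
      atTop (nhds 0) := by
    refine (h1 0 (2 * A) _ hR').congr fun N => ?_
    rw [← sum1 hR]
  have t23 : Tendsto (fun N : ℕ => (∑ p ∈ SP N, (lam p.2 : ℝ) * lam (t3 p) * w p) / Real.log N)
      atTop (nhds 0) := by
    refine (h2 1 (2 * A) _ hR').congr fun N => ?_
    rw [← sum23 hR]
  obtain ⟨M1, b1⟩ := small_of_tendsto t1 hη
  obtain ⟨M2, b2⟩ := small_of_tendsto t2 hη
  obtain ⟨M3, b3⟩ := small_of_tendsto t3' hη
  obtain ⟨M12, b12⟩ := small_of_tendsto t12 hη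
  obtain ⟨M13, b13⟩ := small_of_tendsto t13 hη
  obtain ⟨M23, b23⟩ := small_of_tendsto t23 hη
  refine ⟨δ / (16 * A), by positivity, N₀ + M1 + M2 + M3 + M12 + M13 + M23, fun N hN => ?_⟩
  have c1 := b1 N (by omega) (e₁ : ℝ) (by rcases he₁ with rfl | rfl <;> norm_num)
  have c2 := b2 N (by omega) (e₂ : ℝ) (by rcases he₂ with rfl | rfl <;> norm_num)
  have c3 := b3 N (by omega) (e₃ : ℝ) (by rcases he₃ with rfl | rfl <;> norm_num)
  have c12 := b12 N (by omega) ((e₁ : ℝ) * e₂)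
    (by rcases he₁ with rfl | rfl <;> rcases he₂ with rfl | rfl <;> norm_num)
  have c13 := b13 N (by omega) ((e₁ : ℝ) * e₃)
    (by rcases he₁ with rfl | rfl <;> rcases he₃ with rfl | rfl <;> norm_num)
  have c23 := b23 N (by omega) ((e₂ : ℝ) * e₃)
    (by rcases he₂ with rfl | rfl <;> rcases he₃ with rfl | rfl <;> norm_num)
  have hc : e₁ * e₂ * e₃ = 1 ∨ e₁ * e₂ * e₃ = -1 := by
    rcases he₁ with rfl | rfl <;> rcases he₂ with rfl | rfl <;> rcases he₃ with rfl | rfl <;>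
      norm_num
  have clow := hlow N (by omega) (e₁ * e₂ * e₃) hc
  have hw0 : ∀ p : ℕ × ℕ, 0 ≤ w p := fun p => div_nonneg (ph_nonneg _ _) (Nat.cast_nonneg _)
  -- the main term
  have hmain : 2 * (δ * Real.log N) ≤
      ∑ p ∈ SP N, (w p + ((e₁ : ℝ) * e₂ * e₃) * ((lam p.1 : ℝ) * lam p.2 * lam (t3 p) * w p)) := by
    have e1 : ∀ p ∈ SP N,
        w p + ((e₁ : ℝ) * e₂ * e₃) * ((lam p.1 : ℝ) * lam p.2 * lam (t3 p) * w p) =
        2 * (if lam p.1 * lam p.2 * lam (t3 p) = e₁ * e₂ * e₃ then w p else 0) := by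
      intro p _
      have := ind2 (lam p.1 * lam p.2 * lam (t3 p)) (e₁ * e₂ * e₃)
        (by rcases lam_cases p.1 with h | h <;> rcases lam_cases p.2 with h' | h' <;>
            rcases lam_cases (t3 p) with h'' | h'' <;> rw [h, h', h''] <;> norm_num) hc (w p)
      push_cast at this
      exact this
    rw [Finset.sum_congr rfl e1, ← Finset.mul_sum, ← Finset.sum_filter]
    refine mul_le_mul_of_nonneg_left (clow.trans ?_) (by norm_num)
    have hsub : (SP N).filter (fun p =>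
        lam p.1 * lam p.2 * lam (t3 p) = e₁ * e₂ * e₃ ∧ 1 / A ≤ (p.2 : ℝ) / p.1 ∧
          (p.2 : ℝ) / p.1 ≤ A) ⊆
        (SP N).filter (fun p => lam p.1 * lam p.2 * lam (t3 p) = e₁ * e₂ * e₃) := by
      intro p hp
      rw [Finset.mem_filter] at hp ⊢
      exact ⟨hp.1, hp.2.1⟩
    refine le_trans (le_of_eq ?_) (Finset.sum_le_sum_of_subset_of_nonneg hsub fun p _ _ => hw0 p)
    refine Finset.sum_congr rfl fun p hp => ?_
    rw [Finset.mem_filter] at hp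
    rw [hw]
    simp only
    rw [ph_one hA hp.2.2.1 hp.2.2.2]
  -- the expansion
  have hexp : 8 * ∑ p ∈ (SP N).filter
      (fun p => lam p.1 = e₁ ∧ lam p.2 = e₂ ∧ lam (t3 p) = e₃), w p =
      ∑ p ∈ SP N, (w p + ((e₁ : ℝ) * e₂ * e₃) * ((lam p.1 : ℝ) * lam p.2 * lam (t3 p) * w p))
      + e₁ * ∑ p ∈ SP N, (lam p.1 : ℝ) * w p + e₂ * ∑ p ∈ SP N, (lam p.2 : ℝ) * w p
      + e₃ * ∑ p ∈ SP N, (lam (t3 p) : ℝ) * w p
      + (e₁ : ℝ) * e₂ * ∑ p ∈ SP N, (lam p.1 : ℝ) * lam p.2 * w p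
      + (e₁ : ℝ) * e₃ * ∑ p ∈ SP N, (lam p.1 : ℝ) * lam (t3 p) * w p
      + (e₂ : ℝ) * e₃ * ∑ p ∈ SP N, (lam p.2 : ℝ) * lam (t3 p) * w p := by
    rw [Finset.sum_filter]
    simp only [Finset.mul_sum]
    simp only [← Finset.sum_add_distrib]
    refine Finset.sum_congr rfl fun p _ => ?_
    exact ind8 e₁ e₂ e₃ _ _ _ he₁ he₂ he₃ (lam_cases _) (lam_cases _) (lam_cases _) _
  have hpat : δ / 8 * Real.log N ≤ ∑ p ∈ (SP N).filter
      (fun p => lam p.1 = e₁ ∧ lam p.2 = e₂ ∧ lam (t3 p) = e₃), w p := by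
    linarith
  -- comparison of the weights
  have hcomp : ∑ p ∈ (SP N).filter
      (fun p => lam p.1 = e₁ ∧ lam p.2 = e₂ ∧ lam (t3 p) = e₃), w p ≤
      2 * A * ∑ p ∈ (SP N).filter
      (fun p => lam p.1 = e₁ ∧ lam p.2 = e₂ ∧ lam (t3 p) = e₃), 1 / (max p.1 p.2 : ℝ) := by
    rw [Finset.mul_sum]
    refine Finset.sum_le_sum fun p hp => ?_
    rw [Finset.mem_filter, mem_SP] at hp
    have hp1 : (0 : ℝ) < p.1 := by exact_mod_cast hp.1.1.1
    have hp2 : (0 : ℝ) < p.2 := by exact_mod_cast hp.1.2.1.1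
    have hmax : (0 : ℝ) < max (p.1 : ℝ) p.2 := lt_max_of_lt_left hp1
    by_cases h0 : ph A ((p.2 : ℝ) / p.1) = 0
    · rw [hw]
      simp only
      rw [h0, zero_div]
      positivity
    · have h4 := (ph_supp hA h0).2
      rw [div_le_iff₀ hp1] at h4
      have h5 : max (p.1 : ℝ) p.2 ≤ 2 * A * p.1 := max_le (by nlinarith) h4
      rw [hw]
      simp only
      calc ph A ((p.2 : ℝ) / p.1) / p.1 ≤ 1 / p.1 :=
            div_le_div_of_nonneg_right (ph_le_one _ _) hp1.le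
        _ ≤ 2 * A * (1 / max (p.1 : ℝ) p.2) := by
            rw [mul_one_div, div_le_div_iff₀ hp1 hmax]
            linarith
  have hfin : δ / 8 * Real.log N ≤ 2 * A * ∑ p ∈ (SP N).filter
      (fun p => lam p.1 = e₁ ∧ lam p.2 = e₂ ∧ lam (t3 p) = e₃), 1 / (max p.1 p.2 : ℝ) :=
    hpat.trans hcomp
  have e5 : δ / (16 * A) * Real.log N = (δ / 8 * Real.log N) / (2 * A) := by
    field_simp
    ring
  rw [e5, div_le_iff₀ (by positivity)]
  linarith

theorem out8 (h : S_FIN8) : Out8 := by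
  classical
  intro e₁ e₂ e₃ he₁ he₂ he₃
  obtain ⟨κ, hκ, N₀, hN₀⟩ := h e₁ e₂ e₃ he₁ he₂ he₃
  obtain ⟨N₁, hN₁⟩ : ∃ N₁ : ℕ, ∀ N : ℕ, N₁ ≤ N → 1 ≤ κ / 2 * Real.log N := by
    have h1 : Tendsto (fun N : ℕ => κ / 2 * Real.log N) atTop atTop :=
      (Real.tendsto_log_atTop.comp tendsto_natCast_atTop_atTop).const_mul_atTop (by positivity)
    exact eventually_atTop.1 (h1.eventually_ge_atTop 1)
  refine ⟨κ / 2, by positivity, N₀ + N₁, fun N hN => ?_⟩
  have h1 := hN₀ N (by omega)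
  have h2 := hN₁ N (by omega)
  set P := (SP N).filter (fun p => lam p.1 = e₁ ∧ lam p.2 = e₂ ∧ lam (t3 p) = e₃) with hP
  set D : ℕ → Finset ℕ := fun n => (Nat.divisors (n ^ 2 + 1)).filter (fun d =>
      (-1 : ℤ) ^ ArithmeticFunction.cardFactors d = e₁ ∧
      (-1 : ℤ) ^ ArithmeticFunction.cardFactors ((n ^ 2 + 1) / d) = e₂ ∧
      (-1 : ℤ) ^ ArithmeticFunction.cardFactors (d + (n ^ 2 + 1) / d + 2 * n) = e₃) with hD
  have h3 : ∑ p ∈ P.erase (1, 1), 1 / (max p.1 p.2 : ℝ) ≤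
      ∑ n ∈ Finset.Icc 1 N, ∑ d ∈ D n, 1 / (max (d : ℝ) ((n ^ 2 + 1) / d : ℕ)) := by
    rw [Finset.sum_sigma']
    have key : ∀ p ∈ P.erase (1, 1), ∃ n : ℕ, n = Nat.sqrt (p.1 * p.2 - 1) ∧ 1 ≤ n ∧ n ≤ N ∧
        p.1 * p.2 = n ^ 2 + 1 ∧ 1 ≤ p.1 ∧ 1 ≤ p.2 ∧ (n ^ 2 + 1) / p.1 = p.2 ∧
        t3 p = p.1 + p.2 + 2 * n := by
      intro p hp
      rw [Finset.mem_erase, hP, Finset.mem_filter, mem_SP] at hp
      obtain ⟨hne, ⟨⟨h11, h12⟩, ⟨h21, h22⟩, n, hn⟩, _⟩ := hp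
      have hs : Nat.sqrt (p.1 * p.2 - 1) = n := by
        rw [hn, Nat.add_sub_cancel, Nat.sqrt_eq' n]
      refine ⟨n, hs.symm, ?_, ?_, hn, h11, h21, ?_, ?_⟩
      · by_contra hc
        have hn0 : n = 0 := by omega
        rw [hn0] at hn
        have h5 : p.1 * p.2 = 1 := by rw [hn]; norm_num
        have h6 := Nat.eq_one_of_mul_eq_one_right h5
        have h7 := Nat.eq_one_of_mul_eq_one_left h5
        exact hne (Prod.ext h6 h7)
      · by_contra hc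
        push Not at hc
        have h5 : p.1 * p.2 ≤ N * N := Nat.mul_le_mul h12 h22
        have h6 : N * N < n ^ 2 := by rw [sq]; exact Nat.mul_self_lt_mul_self hc
        omega
      · rw [← hn]
        exact Nat.mul_div_cancel_left _ (by omega)
      · unfold t3
        rw [hs]
    set i : ℕ × ℕ → (_ : ℕ) × ℕ := fun p => ⟨Nat.sqrt (p.1 * p.2 - 1), p.1⟩ with hi
    have hinj : Set.InjOn i (P.erase (1, 1) : Finset (ℕ × ℕ)) := by
      intro p hp q hq hpq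
      obtain ⟨n, hn, _, _, hn2, hp1, _, hn3, _⟩ := key p hp
      obtain ⟨m, hm, _, _, hm2, hq1, _, hm3, _⟩ := key q hq
      simp only [hi, Sigma.mk.injEq, heq_eq_eq] at hpq
      obtain ⟨h5, h6⟩ := hpq
      rw [← hn, ← hm] at h5
      refine Prod.ext h6 ?_
      rw [← hn3, ← hm3, h5, h6]
    have hsub : (P.erase (1, 1)).image i ⊆ (Finset.Icc 1 N).sigma D := by
      intro x hx
      rw [Finset.mem_image] at hx
      obtain ⟨p, hp, rfl⟩ := hx
      obtain ⟨n, hn, hn1, hnN, hn2, hp1, _, hn3, hn4⟩ := key p hp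
      rw [Finset.mem_sigma]
      simp only [hi]
      rw [← hn]
      refine ⟨Finset.mem_Icc.2 ⟨hn1, hnN⟩, ?_⟩
      simp only [hD]
      rw [Finset.mem_filter, Nat.mem_divisors]
      rw [Finset.mem_erase, hP, Finset.mem_filter] at hp
      obtain ⟨_, _, l1, l2, l3⟩ := hp
      refine ⟨⟨⟨p.2, hn2.symm⟩, by positivity⟩, ?_, ?_, ?_⟩
      · exact l1
      · rw [hn3]; exact l2
      · rw [hn3, ← hn4]; exact l3
    refine le_trans (le_of_eq ?_) (Finset.sum_le_sum_of_subset_of_nonneg hsub fun x _ _ => ?_)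
    · rw [Finset.sum_image hinj]
      refine Finset.sum_congr rfl fun p hp => ?_
      obtain ⟨n, hn, _, _, _, _, _, hn3, _⟩ := key p hp
      simp only [hi]
      rw [← hn, hn3]
    · positivity
  have h4 : ∑ p ∈ P, 1 / (max p.1 p.2 : ℝ) ≤
      ∑ p ∈ P.erase (1, 1), 1 / (max p.1 p.2 : ℝ) + 1 := by
    by_cases hm : ((1, 1) : ℕ × ℕ) ∈ P
    · rw [← Finset.sum_erase_add P _ hm]
      norm_num
    · rw [Finset.erase_eq_of_notMem hm]
      linarith
  linarith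

end Pool.Agent.W764.T
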